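import Pool.Agent.Helper25.VS.Flat

/-!
# The complex
-/

set_option autoImplicit false

namespace Pool.Agent.Helper25.VS

open Pool.Agent.W326.DU Pool.Agent.Y66.HC Pool.Agent.Q18.HC.BB

section coset

variable {V : Type} (ad : V → V → Prop)

/-- nonempty cliques -/
def Cl : Type := {σ : Finset V // σ.Nonempty ∧ ∀ a ∈ σ, ∀ b ∈ σ, a ≠ b → ad a b}

/-- the subgroup generated by a clique -/
def Ag (σ : Cl ad) : Subgroup (RAAG ad) := Subgroup.closure (gen ad '' (σ.1 : Set V))

/-- the cosets of the subgroups `Ag σ` -/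
abbrev YV : Type := Σ σ : Cl ad, RAAG ad ⧸ Ag ad σ

/-- the coset `g A_σ` -/
def vt (g : RAAG ad) (σ : Cl ad) : YV ad := ⟨σ, (g : RAAG ad ⧸ Ag ad σ)⟩

/-- the vertices of the complex: the cosets `g A_σ` and the cosets of the Bestvina-Brady group -/
abbrev WV : Type := YV ad ⊕ (RAAG ad ⧸ (hgt ad).ker)

/-- comparable cliques -/
def Cmp (σ τ : Cl ad) : Prop := σ.1 ⊆ τ.1 ∨ τ.1 ⊆ σ.1

/-- the complex -/
def XX : AbstractSimplicialComplex (WV ad) where
  faces := {s | s.Nonempty ∧ (∃ g, ∀ y, Sum.inl y ∈ s → y = vt ad g y.1) ∧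
    (∀ y y', Sum.inl y ∈ s → Sum.inl y' ∈ s → Cmp ad y.1 y'.1) ∧
    ∀ c c', Sum.inr c ∈ s → Sum.inr c' ∈ s → c = c'}
  isRelLowerSet_faces := by
    rintro s ⟨h1, ⟨g, h2⟩, h3, h4⟩
    refine ⟨h1, ?_⟩
    intro t ht hne
    exact ⟨hne, ⟨g, fun y hy => h2 y (ht hy)⟩, fun y y' hy hy' => h3 y y' (ht hy) (ht hy'),
      fun c c' hc hc' => h4 c c' (ht hc) (ht hc')⟩
  singleton_mem := by
    intro x
    refine ⟨⟨x, Finset.mem_singleton_self x⟩, ?_, ?_, ?_⟩
    · rcases x with ⟨σ, q⟩ | c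
      · obtain ⟨g, rfl⟩ := QuotientGroup.mk_surjective q
        refine ⟨g, ?_⟩
        intro y hy
        have h1 : y = ⟨σ, (g : RAAG ad ⧸ Ag ad σ)⟩ := by simpa using hy
        subst h1
        rfl
      · refine ⟨1, ?_⟩
        intro y hy
        simp at hy
    · intro y y' hy hy'
      have h1 : Sum.inl y = x := by simpa using hy
      have h2 : Sum.inl y' = x := by simpa using hy'
      have h3 : y = y' := Sum.inl_injective (h1.trans h2.symm)
      subst h3
      exact Or.inl (Finset.Subset.refl _)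
    · intro c c' hc hc'
      have h1 : Sum.inr c = x := by simpa using hc
      have h2 : Sum.inr c' = x := by simpa using hc'
      exact Sum.inr_injective (h1.trans h2.symm)

variable {ad}

theorem spans_iff (S : Set (WV ad)) : Spans (XX ad) S ↔ S.Finite ∧ S.Nonempty ∧
    (∃ g, ∀ y, Sum.inl y ∈ S → y = vt ad g y.1) ∧
    (∀ y y', Sum.inl y ∈ S → Sum.inl y' ∈ S → Cmp ad y.1 y'.1) ∧
    ∀ c c', Sum.inr c ∈ S → Sum.inr c' ∈ S → c = c' := by
  constructor
  · rintro ⟨s, ⟨h1, h2, h3, h4⟩, rfl⟩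
    exact ⟨s.finite_toSet, h1, h2, h3, h4⟩
  · rintro ⟨hf, h1, h2, h3, h4⟩
    refine ⟨hf.toFinset, ⟨?_, ?_, ?_, ?_⟩, hf.coe_toFinset⟩
    · rw [Set.Finite.toFinset_nonempty]
      exact h1
    · simpa only [Set.Finite.mem_toFinset] using h2
    · simpa only [Set.Finite.mem_toFinset] using h3
    · simpa only [Set.Finite.mem_toFinset] using h4

theorem one (S : Set (WV ad)) (c c' : RAAG ad ⧸ (hgt ad).ker) (h : Spans (XX ad) S)
    (hc : Sum.inr c ∈ S) (hc' : Sum.inr c' ∈ S) : c = c' :=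
  ((spans_iff S).1 h).2.2.2.2 c c' hc hc'

theorem cone (S : Set (WV ad)) (c : RAAG ad ⧸ (hgt ad).ker) (h : Spans (XX ad) S)
    (hc : ∀ c', Sum.inr c' ∈ S → c' = c) : Spans (XX ad) (insert (Sum.inr c) S) := by
  obtain ⟨hf, h1, ⟨g, h2⟩, h3, h4⟩ := (spans_iff S).1 h
  rw [spans_iff]
  refine ⟨hf.insert _, ⟨_, Set.mem_insert _ _⟩, ⟨g, ?_⟩, ?_, ?_⟩
  · rintro y (hy | hy)
    · cases hy
    · exact h2 y hy
  · rintro y y' (hy | hy) (hy' | hy')
    · cases hy
    · cases hy
    · cases hy'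
    · exact h3 y y' hy hy'
  · have h5 : ∀ c', Sum.inr c' ∈ insert (Sum.inr c) S → c' = c := by
      rintro c' (h | h)
      · exact Sum.inr_injective h
      · exact hc c' h
    intro c1 c2 hc1 hc2
    rw [h5 c1 hc1, h5 c2 hc2]

/-- spanning sets of cosets `g A_σ` -/
theorem spans_vt (g : RAAG ad) (P : Finset (Cl ad)) (hP : P.Nonempty)
    (h : ∀ σ ∈ P, ∀ τ ∈ P, Cmp ad σ τ) :
    Spans (XX ad) ((fun σ => (Sum.inl (vt ad g σ) : WV ad)) '' (P : Set (Cl ad))) := by
  rw [spans_iff]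
  refine ⟨P.finite_toSet.image _, hP.to_set.image _, ⟨g, ?_⟩, ?_, ?_⟩
  · rintro y ⟨σ, _, hy⟩
    have h1 : vt ad g σ = y := Sum.inl_injective hy
    subst h1
    rfl
  · rintro y y' ⟨σ, hσ, hy⟩ ⟨τ, hτ, hy'⟩
    have h1 : vt ad g σ = y := Sum.inl_injective hy
    have h2 : vt ad g τ = y' := Sum.inl_injective hy'
    subst h1
    subst h2
    exact h σ hσ τ hτ
  · rintro c c' ⟨σ, _, hc⟩
    cases hc

theorem Cmp.symm {σ τ : Cl ad} (h : Cmp ad σ τ) : Cmp ad τ σ := Or.symm h

theorem Cmp.refl (σ : Cl ad) : Cmp ad σ σ := Or.inl (Finset.Subset.refl _)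

theorem spans3 (g : RAAG ad) (σ τ ρ : Cl ad) (h1 : Cmp ad σ τ) (h2 : Cmp ad σ ρ)
    (h3 : Cmp ad τ ρ) :
    Spans (XX ad) {Sum.inl (vt ad g σ), Sum.inl (vt ad g τ), Sum.inl (vt ad g ρ)} := by
  classical
  have h := spans_vt g {σ, τ, ρ} ⟨σ, by simp⟩ (by
    intro a ha b hb
    simp only [Finset.mem_insert, Finset.mem_singleton] at ha hb
    rcases ha with rfl | rfl | rfl <;> rcases hb with rfl | rfl | rfl <;>
      first | exact Cmp.refl _ | assumption | (apply Cmp.symm; assumption))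
  convert h using 1
  simp [Set.image_insert_eq]

theorem spans2 (g : RAAG ad) (σ τ : Cl ad) (h1 : Cmp ad σ τ) :
    Spans (XX ad) {Sum.inl (vt ad g σ), Sum.inl (vt ad g τ)} :=
  spans_mono (spans3 g σ σ τ (Cmp.refl _) h1 h1) (by intro t; simp) ⟨_, Set.mem_insert _ _⟩

theorem gen_mem {σ : Cl ad} {v : V} (h : v ∈ σ.1) : gen ad v ∈ Ag ad σ :=
  Subgroup.subset_closure ⟨v, h, rfl⟩

theorem vt_mul {σ : Cl ad} (g : RAAG ad) {a : RAAG ad} (ha : a ∈ Ag ad σ) :
    vt ad (g * a) σ = vt ad g σ := by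
  unfold vt
  congr 1
  rw [QuotientGroup.eq]
  have h1 : (g * a)⁻¹ * g = a⁻¹ := by group
  rw [h1]
  exact inv_mem ha

variable (ad) in
/-- the clique with one element -/
def sg (v : V) : Cl ad := ⟨{v}, ⟨v, Finset.mem_singleton_self v⟩, by
  intro a ha b hb hab
  rw [Finset.mem_singleton] at ha hb
  exact (hab (ha.trans hb.symm)).elim⟩

theorem cmp_sg {v : V} {σ : Cl ad} (h : v ∈ σ.1) : Cmp ad (sg ad v) σ :=
  Or.inl (Finset.singleton_subset_iff.2 h)

section flat

variable {A : Type} [AddCommGroup A]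

/-- `H¹(Y; A) = 0` -/
theorem coh1_Y [Fintype V] [DecidableEq V] (hsymm : ∀ a b, ad a b → ad b a)
    (hirr : ∀ a, ¬ ad a a) (hac : Acyc ad)
    (v0 : V) (f : YV ad → YV ad → A)
    (hf : ∀ a b e, Spans (XX ad) {Sum.inl a, Sum.inl b, Sum.inl e} → f b e - f a e + f a b = 0) :
    ∃ b : YV ad → A, ∀ x y, Spans (XX ad) {Sum.inl x, Sum.inl y} → f x y = b y - b x := by
  classical
  -- the cocycle identities
  have hc : ∀ (g : RAAG ad) (σ τ ρ : Cl ad), Cmp ad σ τ → Cmp ad σ ρ → Cmp ad τ ρ →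
      f (vt ad g σ) (vt ad g τ) + f (vt ad g τ) (vt ad g ρ) = f (vt ad g σ) (vt ad g ρ) := by
    intro g σ τ ρ h1 h2 h3
    have h := hf _ _ _ (spans3 g σ τ ρ h1 h2 h3)
    rw [← sub_eq_zero, ← h]
    abel
  have hc0 : ∀ (g : RAAG ad) (σ : Cl ad), f (vt ad g σ) (vt ad g σ) = 0 := by
    intro g σ
    have h := hc g σ σ σ (Cmp.refl _) (Cmp.refl _) (Cmp.refl _)
    exact add_eq_left.1 h
  -- the edges
  let ed : ∀ u v : V, ad u v → Cl ad := fun u v h => ⟨{u, v}, ⟨u, by simp⟩, by
    intro a ha b hb hab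
    simp only [Finset.mem_insert, Finset.mem_singleton] at ha hb
    rcases ha with rfl | rfl <;> rcases hb with rfl | rfl
    · exact (hab rfl).elim
    · exact h
    · exact hsymm _ _ h
    · exact (hab rfl).elim⟩
  have hed1 : ∀ u v h, u ∈ (ed u v h).1 := fun u v h => by simp [ed]
  have hed2 : ∀ u v h, v ∈ (ed u v h).1 := fun u v h => by simp [ed]
  -- the cocycle on the clique complex
  let k : RAAG ad → V → V → A := fun g u v => if h : ad u v then
    f (vt ad g (sg ad u)) (vt ad g (ed u v h)) - f (vt ad g (sg ad v)) (vt ad g (ed u v h)) else 0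
  have hk : ∀ (g : RAAG ad) (u v : V) (τ : Cl ad), ad u v → u ∈ τ.1 → v ∈ τ.1 →
      k g u v = f (vt ad g (sg ad u)) (vt ad g τ) - f (vt ad g (sg ad v)) (vt ad g τ) := by
    intro g u v τ h hu hv
    have h1 : Cmp ad (ed u v h) τ := by
      left
      intro x hx
      simp only [ed, Finset.mem_insert, Finset.mem_singleton] at hx
      rcases hx with rfl | rfl
      · exact hu
      · exact hv
    show (if h : ad u v then f (vt ad g (sg ad u)) (vt ad g (ed u v h)) -
      f (vt ad g (sg ad v)) (vt ad g (ed u v h)) else 0) = _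
    rw [dif_pos h, ← hc g _ _ _ (cmp_sg (hed1 u v h)) (cmp_sg hu) h1,
      ← hc g _ _ _ (cmp_sg (hed2 u v h)) (cmp_sg hv) h1]
    abel
  have hkc : ∀ g, ∃ F : V → A, ∀ a b, ad a b → k g a b = F b - F a := by
    intro g
    apply coh1_L hsymm hirr hac v0 (k g)
    · intro a b e hab hbe hae
      let τ : Cl ad := ⟨{a, b, e}, ⟨a, by simp⟩, by
        intro x hx y hy hxy
        simp only [Finset.mem_insert, Finset.mem_singleton] at hx hy
        rcases hx with rfl | rfl | rfl <;> rcases hy with rfl | rfl | rfl <;>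
          first | exact (hxy rfl).elim | assumption | (apply hsymm; assumption)⟩
      have ha : a ∈ τ.1 := by simp [τ]
      have hb : b ∈ τ.1 := by simp [τ]
      have he : e ∈ τ.1 := by simp [τ]
      rw [hk g a b τ hab ha hb, hk g b e τ hbe hb he, hk g a e τ hae ha he]
      abel
    · intro a b hab
      rw [hk g a b (ed a b hab) hab (hed1 a b hab) (hed2 a b hab),
        hk g b a (ed a b hab) (hsymm _ _ hab) (hed2 a b hab) (hed1 a b hab)]
      abel
  choose F hF using hkc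
  -- all the members of a clique give the same value
  have hB : ∀ (g : RAAG ad) (σ : Cl ad) (u v : V), u ∈ σ.1 → v ∈ σ.1 →
      F g u + f (vt ad g (sg ad u)) (vt ad g σ) = F g v + f (vt ad g (sg ad v)) (vt ad g σ) := by
    intro g σ u v hu hv
    by_cases huv : u = v
    · subst huv
      rfl
    · have h1 := σ.2.2 u hu v hv huv
      have h2 := hF g u v h1
      rw [hk g u v σ h1 hu hv] at h2
      have h3 : f (vt ad g (sg ad u)) (vt ad g σ) =
          F g v - F g u + f (vt ad g (sg ad v)) (vt ad g σ) := by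
        rw [← h2]
        abel
      rw [h3]
      abel
  -- integration
  have hmem : ∀ (g : RAAG ad) (σ : Cl ad) (v : V), v ∈ σ.1 →
      vt ad (g * gen ad v) σ = vt ad g σ := fun g σ v hv => vt_mul g (gen_mem hv)
  obtain ⟨β, hβ⟩ := exists_beta (ad := ad) (fun g v => F g v - F (g * gen ad v) v) (by
    intro g u v huv
    show F g u - F (g * gen ad u) u + (F (g * gen ad u) v - F (g * gen ad u * gen ad v) v) =
      F g v - F (g * gen ad v) v + (F (g * gen ad v) u - F (g * gen ad v * gen ad u) u)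
    have hcm := Pool.Agent.W304.DU.RG.gen_comm ad u v huv
    have e0 : g * gen ad v * gen ad u = g * gen ad u * gen ad v := by
      rw [mul_assoc, mul_assoc, hcm]
    rw [e0]
    have a1 := hB g (ed u v huv) u v (hed1 u v huv) (hed2 u v huv)
    have a2 := hB (g * gen ad u) (ed u v huv) u v (hed1 u v huv) (hed2 u v huv)
    have a3 := hB (g * gen ad v) (ed u v huv) u v (hed1 u v huv) (hed2 u v huv)
    have a4 := hB (g * gen ad u * gen ad v) (ed u v huv) u v (hed1 u v huv) (hed2 u v huv)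
    -- name the vertices
    have b1 : vt ad (g * gen ad u) (ed u v huv) = vt ad g (ed u v huv) :=
      hmem g _ u (hed1 u v huv)
    have b2 : vt ad (g * gen ad v) (ed u v huv) = vt ad g (ed u v huv) :=
      hmem g _ v (hed2 u v huv)
    have b3 : vt ad (g * gen ad u * gen ad v) (ed u v huv) = vt ad g (ed u v huv) :=
      (hmem _ _ v (hed2 u v huv)).trans b1
    have b4 : vt ad (g * gen ad u) (sg ad u) = vt ad g (sg ad u) := hmem g _ u (by simp [sg])
    have b5 : vt ad (g * gen ad v) (sg ad v) = vt ad g (sg ad v) := hmem g _ v (by simp [sg])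
    have b6 : vt ad (g * gen ad u * gen ad v) (sg ad v) = vt ad (g * gen ad u) (sg ad v) :=
      hmem _ _ v (by simp [sg])
    have b7 : vt ad (g * gen ad u * gen ad v) (sg ad u) = vt ad (g * gen ad v) (sg ad u) := by
      rw [← e0]
      exact hmem _ _ u (by simp [sg])
    rw [b1, b4] at a2
    rw [b2, b5] at a3
    rw [b3, b6, b7] at a4
    have c1 : F g u = F g v + f (vt ad g (sg ad v)) (vt ad g (ed u v huv)) -
      f (vt ad g (sg ad u)) (vt ad g (ed u v huv)) := by rw [← a1]; abel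
    have c2 : F (g * gen ad u) u = F (g * gen ad u) v +
      f (vt ad (g * gen ad u) (sg ad v)) (vt ad g (ed u v huv)) -
      f (vt ad g (sg ad u)) (vt ad g (ed u v huv)) := by rw [← a2]; abel
    have c3 : F (g * gen ad v) u = F (g * gen ad v) v +
      f (vt ad g (sg ad v)) (vt ad g (ed u v huv)) -
      f (vt ad (g * gen ad v) (sg ad u)) (vt ad g (ed u v huv)) := by rw [← a3]; abel
    have c4 : F (g * gen ad u * gen ad v) u = F (g * gen ad u * gen ad v) v +
      f (vt ad (g * gen ad u) (sg ad v)) (vt ad g (ed u v huv)) -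
      f (vt ad (g * gen ad v) (sg ad u)) (vt ad g (ed u v huv)) := by rw [← a4]; abel
    rw [c1, c2, c3, c4]
    abel)
  have hβ' : ∀ g v, β (g * gen ad v) + F (g * gen ad v) v = β g + F g v := by
    intro g v
    rw [hβ]
    abel
  -- a point of every clique
  have hpt : ∀ σ : Cl ad, ∃ v, v ∈ σ.1 := fun σ => σ.2.1
  choose pt hpt using hpt
  let Bf : RAAG ad → Cl ad → A := fun g σ =>
    β g + F g (pt σ) + f (vt ad g (sg ad (pt σ))) (vt ad g σ)
  have hBf : ∀ g σ u, u ∈ σ.1 → Bf g σ = β g + F g u + f (vt ad g (sg ad u)) (vt ad g σ) := by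
    intro g σ u hu
    show β g + F g (pt σ) + f (vt ad g (sg ad (pt σ))) (vt ad g σ) = _
    rw [add_assoc, hB g σ (pt σ) u (hpt σ) hu, add_assoc]
  have hgen : ∀ g σ u, u ∈ σ.1 → Bf (g * gen ad u) σ = Bf g σ := by
    intro g σ u hu
    rw [hBf _ σ u hu, hBf g σ u hu, hβ' g u, hmem g σ u hu, hmem g (sg ad u) u (by simp [sg])]
  have hinv : ∀ σ, ∀ a ∈ Ag ad σ, ∀ g, Bf (g * a) σ = Bf g σ := by
    intro σ a ha
    unfold Ag at ha
    induction ha using Subgroup.closure_induction with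
    | mem a ha =>
      obtain ⟨u, hu, rfl⟩ := ha
      exact fun g => hgen g σ u hu
    | one =>
      intro g
      rw [mul_one]
    | mul a b _ _ iha ihb =>
      intro g
      rw [← mul_assoc, ihb, iha]
    | inv a _ iha =>
      intro g
      have h1 := iha (g * a⁻¹)
      rw [inv_mul_cancel_right] at h1
      exact h1.symm
  refine ⟨fun y => Bf (Quotient.out y.2) y.1, ?_⟩
  have hout : ∀ g σ, Bf (Quotient.out (vt ad g σ).2) (vt ad g σ).1 = Bf g σ := by
    intro g σ
    show Bf (Quotient.out (g : RAAG ad ⧸ Ag ad σ)) σ = Bf g σ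
    obtain ⟨a, ha⟩ := QuotientGroup.mk_out_eq_mul (Ag ad σ) g
    rw [ha]
    exact hinv σ a a.2 g
  intro x y hxy
  obtain ⟨_, _, ⟨g, hg⟩, hcmp, _⟩ := (spans_iff _).1 hxy
  have hx := hg x (by simp)
  have hy := hg y (by simp)
  have hcm := hcmp x y (by simp) (by simp)
  rw [hx, hy]
  show f (vt ad g x.1) (vt ad g y.1) = Bf (Quotient.out (vt ad g y.1).2) (vt ad g y.1).1 -
    Bf (Quotient.out (vt ad g x.1).2) (vt ad g x.1).1
  rw [hout, hout]
  rcases hcm with h | h
  · obtain ⟨u, hu⟩ := x.1.2.1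
    rw [hBf g x.1 u hu, hBf g y.1 u (h hu),
      ← hc g _ _ _ (cmp_sg hu) (cmp_sg (h hu)) (Or.inl h : Cmp ad x.1 y.1)]
    abel
  · obtain ⟨u, hu⟩ := y.1.2.1
    have h1 := hc g _ _ _ (cmp_sg hu) (cmp_sg (h hu)) (Or.inl h : Cmp ad y.1 x.1)
    have h2 := hc g x.1 y.1 x.1 (Or.inr h) (Cmp.refl _) (Or.inl h)
    rw [hc0] at h2
    rw [hBf g x.1 u (h hu), hBf g y.1 u hu, ← h1]
    rw [← sub_eq_zero, ← h2]
    abel

end flat

/-- `Y` is connected -/
theorem conn_Y [DecidableEq V] (hsymm : ∀ a b, ad a b → ad b a)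
    (hconn : ∀ a b, Relation.ReflTransGen ad a b) (v0 : V) (y y' : YV ad) :
    Relation.ReflTransGen (fun a b => Spans (XX ad) {Sum.inl a, Sum.inl b}) y y' := by
  let R := Relation.ReflTransGen (fun a b : YV ad => Spans (XX ad) {Sum.inl a, Sum.inl b})
  have hR : ∀ {a b}, R a b → R b a := by
    intro a b h
    refine rtg_symm ?_ h
    intro a b h
    show Spans (XX ad) {Sum.inl b, Sum.inl a}
    rw [Set.pair_comm]
    exact h
  have h1 : ∀ (g : RAAG ad) (σ τ : Cl ad), R (vt ad g σ) (vt ad g τ) := by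
    intro g
    have h2 : ∀ (σ τ : Cl ad), Cmp ad σ τ → R (vt ad g σ) (vt ad g τ) :=
      fun σ τ h => Relation.ReflTransGen.single (spans2 g σ τ h)
    have h3 : ∀ u v, R (vt ad g (sg ad u)) (vt ad g (sg ad v)) := by
      intro u v
      induction hconn u v with
      | refl => exact Relation.ReflTransGen.refl
      | @tail a b _ hab ih =>
        let τ : Cl ad := ⟨{a, b}, ⟨a, by simp⟩, by
          intro x hx y hy hxy
          simp only [Finset.mem_insert, Finset.mem_singleton] at hx hy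
          rcases hx with rfl | rfl <;> rcases hy with rfl | rfl <;>
            first | exact (hxy rfl).elim | assumption | (apply hsymm; assumption)⟩
        have h4 := h2 _ _ (cmp_sg (σ := τ) (show a ∈ τ.1 by simp [τ]))
        have h5 := h2 _ _ (cmp_sg (σ := τ) (show b ∈ τ.1 by simp [τ])).symm
        exact (ih.trans h4).trans h5
    intro σ τ
    obtain ⟨u, hu⟩ := σ.2.1
    obtain ⟨v, hv⟩ := τ.2.1
    exact ((h2 _ _ (cmp_sg hu).symm).trans (h3 u v)).trans (h2 _ _ (cmp_sg hv))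
  have h2 : ∀ (g : RAAG ad), R (vt ad 1 (sg ad v0)) (vt ad g (sg ad v0)) := by
    intro g
    have hg : g ∈ Subgroup.closure (Set.range (gen ad)) := by
      rw [show Subgroup.closure (Set.range (gen ad)) = ⊤ from PresentedGroup.closure_range_of _]
      trivial
    have hstep : ∀ (g : RAAG ad) (v : V), R (vt ad g (sg ad v0)) (vt ad (g * gen ad v) (sg ad v0)) := by
      intro g v
      have h3 : vt ad (g * gen ad v) (sg ad v) = vt ad g (sg ad v) :=
        vt_mul g (gen_mem (by simp [sg]))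
      have h4 := h1 g (sg ad v0) (sg ad v)
      have h5 := h1 (g * gen ad v) (sg ad v) (sg ad v0)
      rw [h3] at h5
      exact h4.trans h5
    induction hg using Subgroup.closure_induction_right with
    | one => exact Relation.ReflTransGen.refl
    | mul_right x hx y hy ih =>
      obtain ⟨v, rfl⟩ := hy
      exact ih.trans (hstep x v)
    | mul_inv_cancel x hx y hy ih =>
      obtain ⟨v, rfl⟩ := hy
      have h3 := hstep (x * (gen ad v)⁻¹) v
      rw [inv_mul_cancel_right] at h3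
      exact ih.trans (hR h3)
  have h3 : ∀ y : YV ad, R (vt ad 1 (sg ad v0)) y := by
    rintro ⟨σ, q⟩
    obtain ⟨g, rfl⟩ := QuotientGroup.mk_surjective q
    exact (h2 g).trans (h1 g (sg ad v0) σ)
  exact (hR (h3 y)).trans (h3 y')

end coset

end Pool.Agent.Helper25.VS
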