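import Mathlib

/-!
# Simplicial complexes with group actions (MP_63e749_al): definitions
-/

set_option autoImplicit false

namespace Pool.Agent.Helper25.VS

section cx

variable {V : Type} (X : AbstractSimplicialComplex V)

/-- the elements of the set `S` are the vertices of a simplex of `X` -/
def Spans (S : Set V) : Prop := ∃ s ∈ X.faces, (s : Set V) = S

/-- the elementary homotopies of edge paths (written as lists of vertices): `a, b, c` is replaced
by `a, c` if `a`, `b`, `c` are vertices of a simplex (repetitions allowed), and `a, a` by `a` -/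
inductive Move : List V → List V → Prop
  | tri (l r : List V) (a b c : V) (h : Spans X {a, b, c}) :
      Move (l ++ a :: b :: c :: r) (l ++ a :: c :: r)
  | rep (l r : List V) (a : V) : Move (l ++ a :: a :: r) (l ++ a :: r)

/-- `p` is a closed edge path from `v` to `v` -/
def Loop (v : V) (p : List V) : Prop :=
  p.IsChain (fun a b => Spans X {a, b}) ∧ p.head? = some v ∧ p.getLast? = some v

/-- nonempty, connected, and every closed edge path is null-homotopic -/
def SimplyConn : Prop :=
  Nonempty V ∧ (∀ v w, Relation.ReflTransGen (fun a b => Spans X {a, b}) v w) ∧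
    ∀ v p, Loop X v p → Relation.EqvGen (Move X) p [v]

/-- the boundary of ordered simplicial `2`-chains, `(a,b,c) ↦ (b,c) - (a,c) + (a,b)` -/
noncomputable def d2 : (V × V × V →₀ ℤ) →+ (V × V →₀ ℤ) :=
  Finsupp.liftAddHom fun t => Finsupp.singleAddHom (t.2.1, t.2.2) -
    Finsupp.singleAddHom (t.1, t.2.2) + Finsupp.singleAddHom (t.1, t.2.1)

/-- the boundary of ordered simplicial `3`-chains,
`(a,b,c,d) ↦ (b,c,d) - (a,c,d) + (a,b,d) - (a,b,c)` -/
noncomputable def d3 : (V × V × V × V →₀ ℤ) →+ (V × V × V →₀ ℤ) :=
  Finsupp.liftAddHom fun t => Finsupp.singleAddHom (t.2.1, t.2.2.1, t.2.2.2) -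
    Finsupp.singleAddHom (t.1, t.2.2.1, t.2.2.2) + Finsupp.singleAddHom (t.1, t.2.1, t.2.2.2) -
    Finsupp.singleAddHom (t.1, t.2.1, t.2.2.1)

/-- `H_2(X; ℤ) = 0` -/
def H2Zero : Prop := ∀ z : V × V × V →₀ ℤ,
  (∀ t ∈ z.support, Spans X {t.1, t.2.1, t.2.2}) → d2 z = 0 →
    ∃ w : V × V × V × V →₀ ℤ,
      (∀ t ∈ w.support, Spans X {t.1, t.2.1, t.2.2.1, t.2.2.2}) ∧ d3 w = z

/-- `2`-connected: simply connected and `H_2 = 0` (by Hurewicz, `π_2 = H_2` for simply connected
complexes) -/
def TwoConn : Prop := SimplyConn X ∧ H2Zero X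

end cx

section act

variable (G : Type) {V : Type} [Group G] [MulAction G V] (X : AbstractSimplicialComplex V)

/-- `G` acts on the simplicial complex `X`, and an element which maps a simplex to itself fixes
its vertices: the geometric realisation of `X` is a `G`-CW-complex. -/
structure GComplex : Prop where
  simplicial : ∀ g : G, ∀ s ∈ X.faces, s.map (MulAction.toPerm g).toEmbedding ∈ X.faces
  regular : ∀ g : G, ∀ s ∈ X.faces, s.map (MulAction.toPerm g).toEmbedding = s →
    ∀ v ∈ s, g • v = v

/-- finitely many orbits of simplices: the quotient is compact -/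
def Cocompact : Prop := ∃ T : Finset (Finset V), ∀ s ∈ X.faces, ∃ t ∈ T, ∃ g : G,
  s = t.map (MulAction.toPerm g).toEmbedding

open scoped Pointwise in
/-- the stabiliser of the simplex with vertex set `s` -/
def stab (s : Finset V) : Subgroup G := MulAction.stabilizer G (s : Set V)

end act

end Pool.Agent.Helper25.VS
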