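import Pool.Agent.Helper25.VS.Join
import Pool.Agent.Q18.HC.BB4
import Pool.Agent.Q18.HC.NF
import Pool.Agent.Q18.HC.M8

/-!
# Abelian cocycles on the clique complex and on the coset complex
-/

set_option autoImplicit false

namespace Pool.Agent.Helper25.VS

open Pool.Agent.W326.DU Pool.Agent.Y66.HC

section pairing

variable {V A : Type} [Fintype V] [LinearOrder V] [AddCommGroup A]

/-- the pairing of an alternating function with a cochain -/
def pair (y : V → V → ℤ) (k : V → V → A) : A := ∑ a, ∑ b, if a < b then y a b • k a b else 0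

theorem pair_sub (y y' : V → V → ℤ) (k : V → V → A) :
    pair (fun a b => y a b - y' a b) k = pair y k - pair y' k := by
  unfold pair
  rw [← Finset.sum_sub_distrib]
  refine Finset.sum_congr rfl fun a _ => ?_
  rw [← Finset.sum_sub_distrib]
  refine Finset.sum_congr rfl fun b _ => ?_
  split_ifs
  · rw [sub_smul]
  · rw [sub_zero]

/-- an oriented edge -/
def edg (s t : V) (a b : V) : ℤ :=
  (if a = s ∧ b = t then 1 else 0) - (if a = t ∧ b = s then 1 else 0)

theorem sum_pick (s t : V) (g : V → V → A) :
    (∑ a, ∑ b, if a = s ∧ b = t then g a b else 0) = g s t := by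
  rw [Finset.sum_eq_single s]
  · rw [Finset.sum_eq_single t]
    · rw [if_pos ⟨rfl, rfl⟩]
    · intro b _ hb
      rw [if_neg (fun h => hb h.2)]
    · intro h
      exact (h (Finset.mem_univ _)).elim
  · intro a _ ha
    apply Finset.sum_eq_zero
    intro b _
    rw [if_neg (fun h => ha h.1)]
  · intro h
    exact (h (Finset.mem_univ _)).elim

theorem pair_edg (s t : V) (hst : s ≠ t) (k : V → V → A) (hk : k s t + k t s = 0) :
    pair (edg s t) k = k s t := by
  have h1 : pair (edg s t) k =
      (∑ a, ∑ b, if a = s ∧ b = t then (if a < b then k a b else 0) else 0) -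
      (∑ a, ∑ b, if a = t ∧ b = s then (if a < b then k a b else 0) else 0) := by
    unfold pair edg
    rw [← Finset.sum_sub_distrib]
    refine Finset.sum_congr rfl fun a _ => ?_
    rw [← Finset.sum_sub_distrib]
    refine Finset.sum_congr rfl fun b _ => ?_
    by_cases h1 : a = s ∧ b = t
    · have h2 : ¬ (a = t ∧ b = s) := fun h => hst (h1.1.symm.trans h.1)
      simp only [if_pos h1, if_neg h2, sub_zero, one_smul]
    · by_cases h2 : a = t ∧ b = s
      · simp only [if_neg h1, if_pos h2]
        split_ifs <;> simp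
      · simp only [if_neg h1, if_neg h2]
        split_ifs <;> simp
  rw [h1, sum_pick s t (fun a b => if a < b then k a b else 0),
    sum_pick t s (fun a b => if a < b then k a b else 0)]
  rcases lt_or_gt_of_ne hst with h | h
  · rw [if_pos h, if_neg (not_lt.2 h.le), sub_zero]
  · rw [if_neg (not_lt.2 h.le), if_pos h, zero_sub]
    exact (eq_neg_of_add_eq_zero_left hk).symm

theorem pair_bd {ad : V → V → Prop} (hirr : ∀ a, ¬ ad a a) (z : V → V → V → ℤ)
    (hz : IsAlt3 ad Set.univ z) (k : V → V → A)
    (hk : ∀ a b e, ad a b → ad b e → ad a e → k a b + k b e = k a e) :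
    pair (fun b c => ∑ a, z a b c) k = 0 := by
  obtain ⟨z1, z2, z3⟩ := hz
  have hz0 : ∀ a b c, (a = b ∨ a = c) → z a b c = 0 := by
    intro a b c h
    apply z3
    rintro ⟨-, -, -, h1, h2, h3⟩
    rcases h with rfl | rfl
    · exact hirr _ h1
    · exact hirr _ h3
  have e1 : pair (fun b c => ∑ a, z a b c) k =
      ∑ a, ∑ b, ∑ c, if b < c then z a b c • k b c else 0 := by
    unfold pair
    have h2 : ∀ b c, (if b < c then (∑ a, z a b c) • k b c else 0) =
        ∑ a, if b < c then z a b c • k b c else 0 := by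
      intro b c
      split_ifs
      · rw [Finset.sum_smul]
      · simp
    simp only [h2]
    calc (∑ b, ∑ c, ∑ a, if b < c then z a b c • k b c else 0) =
        ∑ b, ∑ a, ∑ c, if b < c then z a b c • k b c else 0 :=
          Finset.sum_congr rfl fun b _ => Finset.sum_comm
      _ = ∑ a, ∑ b, ∑ c, if b < c then z a b c • k b c else 0 := Finset.sum_comm
  have e2 : ∀ a b c, (if b < c then z a b c • k b c else 0) =
      (if a < b ∧ b < c then z a b c • k b c else 0) +
      (if b < a ∧ a < c then z a b c • k b c else 0) +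
      (if b < c ∧ c < a then z a b c • k b c else 0) := by
    intro a b c
    by_cases h0 : z a b c = 0
    · simp [h0]
    · have hab : a ≠ b := fun h => h0 (hz0 a b c (Or.inl h))
      have hac : a ≠ c := fun h => h0 (hz0 a b c (Or.inr h))
      by_cases hbc : b < c
      · rcases lt_or_gt_of_ne hab with h | h
        · rw [if_pos hbc, if_pos ⟨h, hbc⟩, if_neg (fun h' => lt_asymm h h'.1),
            if_neg (fun h' => lt_asymm (h.trans hbc) h'.2)]
          simp
        · rcases lt_or_gt_of_ne hac with h' | h'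
          · rw [if_pos hbc, if_neg (fun h'' => lt_asymm h h''.1), if_pos ⟨h, h'⟩,
              if_neg (fun h'' => lt_asymm h' h''.2)]
            simp
          · rw [if_pos hbc, if_neg (fun h'' => lt_asymm h h''.1),
              if_neg (fun h'' => lt_asymm h' h''.2), if_pos ⟨hbc, h'⟩]
            simp
      · rw [if_neg hbc, if_neg (fun h => hbc h.2), if_neg (fun h => hbc (h.1.trans h.2)),
          if_neg (fun h => hbc h.1)]
        simp
  have e3 : (∑ a, ∑ b, ∑ c, if b < a ∧ a < c then z a b c • k b c else 0) =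
      ∑ a, ∑ b, ∑ c, if a < b ∧ b < c then z b a c • k a c else 0 := Finset.sum_comm
  have e4 : (∑ a, ∑ b, ∑ c, if b < c ∧ c < a then z a b c • k b c else 0) =
      ∑ a, ∑ b, ∑ c, if a < b ∧ b < c then z c a b • k a b else 0 := by
    calc (∑ a, ∑ b, ∑ c, if b < c ∧ c < a then z a b c • k b c else 0) =
        ∑ b, ∑ a, ∑ c, if b < c ∧ c < a then z a b c • k b c else 0 := Finset.sum_comm
      _ = ∑ b, ∑ c, ∑ a, if b < c ∧ c < a then z a b c • k b c else 0 :=
          Finset.sum_congr rfl fun b _ => Finset.sum_comm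
  rw [e1]
  simp only [e2, Finset.sum_add_distrib]
  rw [e3, e4]
  simp only [← Finset.sum_add_distrib]
  apply Finset.sum_eq_zero
  intro a _
  apply Finset.sum_eq_zero
  intro b _
  apply Finset.sum_eq_zero
  intro c _
  by_cases h : a < b ∧ b < c
  · rw [if_pos h, if_pos h, if_pos h]
    by_cases h0 : ad a b ∧ ad b c ∧ ad a c
    · have h1 : z b a c = - z a b c := z1 b a c
      have h2 : z c a b = z a b c := by rw [z1 c a b, z2 a c b, neg_neg]
      rw [h1, h2, neg_smul, ← hk a b c h0.1 h0.2.1 h0.2.2, smul_add]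
      abel
    · have h1 : z a b c = 0 := z3 a b c (fun h => h0 h.2.2.2)
      have h2 : z b a c = 0 := by rw [z1 b a c, h1, neg_zero]
      have h3 : z c a b = 0 := by rw [z1 c a b, z2 a c b, h1, neg_zero, neg_zero]
      rw [h1, h2, h3]
      simp
  · rw [if_neg h, if_neg h, if_neg h]
    simp

end pairing

/-- `H¹(L; A) = 0` for the clique complex -/
theorem coh1_L {V : Type} [Fintype V] {ad : V → V → Prop} (hsymm : ∀ a b, ad a b → ad b a)
    (hirr : ∀ a, ¬ ad a a) (hac : Acyc ad) (v0 : V) {A : Type} [AddCommGroup A] (k : V → V → A)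
    (hk : ∀ a b e, ad a b → ad b e → ad a e → k a b + k b e = k a e)
    (hk2 : ∀ a b, ad a b → k a b + k b a = 0) :
    ∃ f : V → A, ∀ a b, ad a b → k a b = f b - f a := by
  classical
  letI : LinearOrder V := linearOrderOfSTO (r := WellOrderingRel)
  have h1 : ∀ v : V, ∃ y : V → V → ℤ, IsAlt2 ad Set.univ y ∧
      ∀ b, ((if b = v then 1 else 0) - (if b = v0 then 1 else 0) : ℤ) = ∑ a, y a b := by
    intro v
    apply hac.ac1 ℤ
    rw [Finset.sum_sub_distrib]
    simp
  choose y hy1 hy2 using h1
  refine ⟨fun v => pair (y v) k, ?_⟩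
  intro s t hst
  have hne : s ≠ t := by
    rintro rfl
    exact hirr _ hst
  -- the cycle
  have h2 : IsAlt2 ad Set.univ (fun a b => y t a b - y s a b - edg s t a b) := by
    constructor
    · intro a b
      show y t a b - y s a b - edg s t a b = -(y t b a - y s b a - edg s t b a)
      rw [(hy1 t).1 a b, (hy1 s).1 a b]
      have h3 : edg s t a b = - edg s t b a := by
        unfold edg
        rw [neg_sub]
        congr 1
        · exact if_congr and_comm rfl rfl
        · exact if_congr and_comm rfl rfl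
      rw [h3]
      ring
    · intro a b hab
      show y t a b - y s a b - edg s t a b = 0
      rw [(hy1 t).2 a b hab, (hy1 s).2 a b hab]
      have h3 : edg s t a b = 0 := by
        unfold edg
        rw [if_neg, if_neg, sub_zero]
        · rintro ⟨rfl, rfl⟩
          exact hab ⟨trivial, trivial, hsymm _ _ hst⟩
        · rintro ⟨rfl, rfl⟩
          exact hab ⟨trivial, trivial, hst⟩
      rw [h3]
      ring
  have h3 : ∀ b, ∑ a, (y t a b - y s a b - edg s t a b) = 0 := by
    intro b
    rw [Finset.sum_sub_distrib, Finset.sum_sub_distrib, ← hy2, ← hy2]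
    have h4 : ∑ a, edg s t a b = (if b = t then 1 else 0) - (if b = s then 1 else 0) := by
      unfold edg
      rw [Finset.sum_sub_distrib]
      congr 1
      · by_cases hb : b = t
        · simp [hb]
        · simp [hb]
      · by_cases hb : b = s
        · simp [hb]
        · simp [hb]
    rw [h4]
    ring
  obtain ⟨z, hz1, hz2⟩ := hac.ac2 ℤ _ h2 h3
  have h5 : pair (fun a b => y t a b - y s a b - edg s t a b) k = 0 := by
    have h6 : (fun a b => y t a b - y s a b - edg s t a b) = fun b c => ∑ a, z a b c := by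
      funext b c
      exact hz2 b c
    rw [h6]
    exact pair_bd hirr z hz1 k hk
  rw [pair_sub (fun a b => y t a b - y s a b) (edg s t) k, pair_sub (y t) (y s) k,
    pair_edg s t hne k (hk2 s t hst), sub_eq_zero] at h5
  exact h5.symm

/-- integration along the Cayley graph of a right-angled Artin group -/
theorem exists_beta {V : Type} {ad : V → V → Prop} {A : Type} [AddCommGroup A]
    (T : RAAG ad → V → A)
    (hT : ∀ g u v, ad u v → T g u + T (g * gen ad u) v = T g v + T (g * gen ad v) u) :
    ∃ β : RAAG ad → A, ∀ g v, β (g * gen ad v) = β g + T g v := by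
  let π : V → Equiv.Perm (A × RAAG ad) := fun v =>
    { toFun := fun x => (x.1 - T (x.2 * (gen ad v)⁻¹) v, x.2 * (gen ad v)⁻¹)
      invFun := fun x => (x.1 + T x.2 v, x.2 * gen ad v)
      left_inv := by
        rintro ⟨a, g⟩
        simp
      right_inv := by
        rintro ⟨a, g⟩
        simp }
  have hπ : ∀ v a g, π v (a, g) = (a - T (g * (gen ad v)⁻¹) v, g * (gen ad v)⁻¹) :=
    fun _ _ _ => rfl
  have hπ' : ∀ v a g, (π v)⁻¹ (a, g) = (a + T g v, g * gen ad v) := fun _ _ _ => rfl
  have hrel : ∀ r ∈ rels ad, FreeGroup.lift π r = 1 := by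
    rintro _ ⟨u, v, huv, rfl⟩
    simp only [map_mul, map_inv, FreeGroup.lift_apply_of]
    rw [mul_inv_eq_one, mul_inv_eq_iff_eq_mul]
    apply Equiv.ext
    rintro ⟨a, g⟩
    rw [Equiv.Perm.mul_apply, Equiv.Perm.mul_apply, hπ, hπ, hπ, hπ]
    obtain ⟨h, rfl⟩ : ∃ h, g = h * gen ad u * gen ad v :=
      ⟨g * (gen ad v)⁻¹ * (gen ad u)⁻¹, by group⟩
    have hc := Pool.Agent.W304.DU.RG.gen_comm ad u v huv
    have h1 : h * gen ad u * gen ad v * (gen ad v)⁻¹ = h * gen ad u := by group
    have h2 : h * gen ad u * gen ad v * (gen ad u)⁻¹ = h * gen ad v := by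
      rw [mul_assoc h, hc]
      group
    have h3 : h * gen ad v * (gen ad v)⁻¹ = h := by group
    have h4 : h * gen ad u * (gen ad u)⁻¹ = h := by group
    rw [h1, h2, h3, h4]
    refine Prod.ext ?_ rfl
    show a - T (h * gen ad u) v - T h u = a - T (h * gen ad v) u - T h v
    have h5 := hT h u v huv
    have h6 : T (h * gen ad u) v = T h v + T (h * gen ad v) u - T h u := by
      rw [← h5]
      abel
    rw [h6]
    abel
  let Φ : RAAG ad →* Equiv.Perm (A × RAAG ad) := PresentedGroup.toGroup hrel
  have hΦ : ∀ v, Φ (gen ad v) = π v := fun v => PresentedGroup.toGroup.of hrel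
  have hsnd : ∀ g : RAAG ad, ∀ x, (Φ g x).2 = x.2 * g⁻¹ := by
    intro g
    have hg : g ∈ Subgroup.closure (Set.range (gen ad)) := by
      rw [show Subgroup.closure (Set.range (gen ad)) = ⊤ from PresentedGroup.closure_range_of _]
      trivial
    induction hg using Subgroup.closure_induction with
    | mem g hg =>
      obtain ⟨v, rfl⟩ := hg
      rintro ⟨a, h⟩
      rw [hΦ, hπ]
    | one =>
      intro x
      rw [map_one, inv_one, mul_one]
      rfl
    | mul a b _ _ ha hb =>
      intro x
      rw [map_mul, Equiv.Perm.mul_apply, ha, hb]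
      group
    | inv a _ ha =>
      intro x
      have h1 := ha (Φ a⁻¹ x)
      have h2 : Φ a (Φ a⁻¹ x) = x := by
        rw [← Equiv.Perm.mul_apply, ← map_mul, mul_inv_cancel, map_one]
        rfl
      rw [h2] at h1
      rw [h1]
      group
  refine ⟨fun g => (Φ g⁻¹ (0, 1)).1, ?_⟩
  intro g v
  show (Φ (g * gen ad v)⁻¹ (0, 1)).1 = (Φ g⁻¹ (0, 1)).1 + T g v
  rw [mul_inv_rev, map_mul, map_inv, hΦ, Equiv.Perm.mul_apply]
  have h1 : Φ g⁻¹ (0, 1) = ((Φ g⁻¹ (0, 1)).1, g) := by
    refine Prod.ext rfl ?_
    rw [hsnd]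
    simp
  rw [h1, hπ']

end Pool.Agent.Helper25.VS
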