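import Pool.Agent.Helper25.VS.Defs

/-!
# Joins with discrete sets
-/

set_option autoImplicit false

namespace Pool.Agent.Helper25.VS

theorem rtg_symm {α : Type} {r : α → α → Prop} (hr : ∀ a b, r a b → r b a) {a b : α}
    (h : Relation.ReflTransGen r a b) : Relation.ReflTransGen r b a := by
  induction h with
  | refl => exact Relation.ReflTransGen.refl
  | tail _ h ih => exact Relation.ReflTransGen.head (hr _ _ h) ih

section base

variable {V : Type} {X : AbstractSimplicialComplex V}

theorem spans_mono {S T : Set V} (h : Spans X S) (hT : T ⊆ S) (hne : T.Nonempty) : Spans X T := by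
  obtain ⟨s, hs, rfl⟩ := h
  have hf : T.Finite := s.finite_toSet.subset hT
  refine ⟨hf.toFinset, ?_, hf.coe_toFinset⟩
  refine (X.isRelLowerSet_faces hs).2 ?_ ?_
  · intro x hx
    exact hT (hf.mem_toFinset.1 hx)
  · rw [Set.Finite.toFinset_nonempty]
    exact hne

/-- `H²(X; A) = 0` for all `A` -/
def CoH2 (X : AbstractSimplicialComplex V) : Prop := ∀ (A : Type) [AddCommGroup A]
  (u : V → V → V → A),
  (∀ a b c d, Spans X {a, b, c, d} → u b c d - u a c d + u a b d - u a b c = 0) →
  ∃ w : V → V → A, ∀ a b c, Spans X {a, b, c} → u a b c = w b c - w a c + w a b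

theorem d2_single (t : V × V × V) (n : ℤ) : d2 (Finsupp.single t n) =
    Finsupp.single (t.2.1, t.2.2) n - Finsupp.single (t.1, t.2.2) n +
      Finsupp.single (t.1, t.2.1) n := by
  rw [d2, Finsupp.liftAddHom_apply_single]
  rfl

theorem d3_single (t : V × V × V × V) (n : ℤ) : d3 (Finsupp.single t n) =
    Finsupp.single (t.2.1, t.2.2.1, t.2.2.2) n - Finsupp.single (t.1, t.2.2.1, t.2.2.2) n +
      Finsupp.single (t.1, t.2.1, t.2.2.2) n - Finsupp.single (t.1, t.2.1, t.2.2.1) n := by
  rw [d3, Finsupp.liftAddHom_apply_single]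
  rfl

/-- the boundaries -/
def B3 (X : AbstractSimplicialComplex V) : AddSubgroup (V × V × V →₀ ℤ) where
  carrier := {z | ∃ w : V × V × V × V →₀ ℤ,
      (∀ t ∈ w.support, Spans X {t.1, t.2.1, t.2.2.1, t.2.2.2}) ∧ d3 w = z}
  zero_mem' := ⟨0, by simp, map_zero _⟩
  add_mem' := by
    classical
    rintro _ _ ⟨w, hw, rfl⟩ ⟨w', hw', rfl⟩
    refine ⟨w + w', ?_, map_add _ _ _⟩
    intro t ht
    rcases Finset.mem_union.1 (Finsupp.support_add ht) with h | h
    · exact hw t h
    · exact hw' t h
  neg_mem' := by
    rintro _ ⟨w, hw, rfl⟩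
    refine ⟨-w, ?_, map_neg _ _⟩
    intro t ht
    rw [Finsupp.support_neg] at ht
    exact hw t ht

theorem h2zero_of_coh2 (h : CoH2 X) : H2Zero X := by
  intro z hz hd
  obtain ⟨w, hw⟩ := h ((V × V × V →₀ ℤ) ⧸ B3 X)
    (fun a b c => QuotientAddGroup.mk' (B3 X) (Finsupp.single (a, b, c) 1)) (by
      intro a b c d habcd
      rw [← map_sub, ← map_add, ← map_sub, QuotientAddGroup.mk'_apply,
        QuotientAddGroup.eq_zero_iff]
      refine ⟨Finsupp.single (a, b, c, d) 1, ?_, d3_single _ _⟩
      intro t ht
      have h1 : t = (a, b, c, d) := by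
        classical
        have h2 := Finsupp.support_single_subset ht
        simpa using h2
      subst h1
      exact habcd)
  let W : (V × V →₀ ℤ) →+ ((V × V × V →₀ ℤ) ⧸ B3 X) :=
    Finsupp.liftAddHom fun p => (zmultiplesHom _ (w p.1 p.2))
  have hW : ∀ (p : V × V) (n : ℤ), W (Finsupp.single p n) = n • w p.1 p.2 := by
    intro p n
    show Finsupp.liftAddHom _ _ = _
    rw [Finsupp.liftAddHom_apply_single]
    rfl
  have h1 : QuotientAddGroup.mk' (B3 X) z = W (d2 z) := by
    have h2 : z = z.sum Finsupp.single := (Finsupp.sum_single z).symm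
    conv_lhs => rw [h2]
    conv_rhs => rw [h2]
    rw [Finsupp.sum, map_sum, map_sum, map_sum]
    refine Finset.sum_congr rfl fun t ht => ?_
    obtain ⟨a, b, c⟩ := t
    rw [d2_single, map_add, map_sub, hW, hW, hW]
    show _ = z (a, b, c) • w b c - z (a, b, c) • w a c + z (a, b, c) • w a b
    rw [← zsmul_sub, ← zsmul_add, ← hw a b c (hz _ ht), ← map_zsmul]
    congr 1
    rw [Finsupp.smul_single, smul_eq_mul, mul_one]
  rw [hd, map_zero, QuotientAddGroup.mk'_apply, QuotientAddGroup.eq_zero_iff] at h1
  exact h1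

end base

section join

variable {Y D : Type} {X : AbstractSimplicialComplex (Y ⊕ D)}

theorem join_coh2 (c0 : D)
    (hone : ∀ (S : Set (Y ⊕ D)) (c c' : D), Spans X S → Sum.inr c ∈ S → Sum.inr c' ∈ S → c = c')
    (hcone : ∀ (S : Set (Y ⊕ D)) (c : D), Spans X S → (∀ c', Sum.inr c' ∈ S → c' = c) →
      Spans X (insert (Sum.inr c) S))
    (hY : ∀ (A : Type) [AddCommGroup A] (f : Y → Y → A),
      (∀ a b e, Spans X {Sum.inl a, Sum.inl b, Sum.inl e} → f b e - f a e + f a b = 0) →
      ∃ b : Y → A, ∀ x y, Spans X {Sum.inl x, Sum.inl y} → f x y = b y - b x) : CoH2 X := by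
  classical
  intro A _ u hu
  -- the cone formula
  have key : ∀ (c : D) (a b e : Y ⊕ D), Spans X {a, b, e} →
      (∀ c', Sum.inr c' ∈ ({a, b, e} : Set (Y ⊕ D)) → c' = c) →
      u a b e = u (Sum.inr c) b e - u (Sum.inr c) a e + u (Sum.inr c) a b := by
    intro c a b e h hc
    have h1 := hu (Sum.inr c) a b e (hcone _ c h hc)
    rw [← sub_eq_zero, ← h1]
    abel
  have hb : ∀ c : D, ∃ b : Y → A, ∀ x y, Spans X {Sum.inl x, Sum.inl y} →
      u (Sum.inr c) (Sum.inl x) (Sum.inl y) - u (Sum.inr c0) (Sum.inl x) (Sum.inl y) =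
        b y - b x := by
    intro c
    apply hY A fun x y =>
      u (Sum.inr c) (Sum.inl x) (Sum.inl y) - u (Sum.inr c0) (Sum.inl x) (Sum.inl y)
    intro a b e h
    have h1 := key c _ _ _ h (by rintro c' (h | h | h) <;> cases h)
    have h2 := key c0 _ _ _ h (by rintro c' (h | h | h) <;> cases h)
    rw [h1] at h2
    rw [← sub_eq_zero] at h2
    rw [← h2]
    abel
  choose b hb using hb
  let B : D → Y ⊕ D → A := fun c x => Sum.elim (b c) (fun _ => 0) x
  let w' : D → Y ⊕ D → Y ⊕ D → A := fun c x y => u (Sum.inr c) x y - (B c y - B c x)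
  let w : Y ⊕ D → Y ⊕ D → A := fun x y => match x, y with
    | Sum.inl x, Sum.inl y => u (Sum.inr c0) (Sum.inl x) (Sum.inl y)
    | Sum.inr c, y => w' c (Sum.inr c) y
    | Sum.inl x, Sum.inr c => w' c (Sum.inl x) (Sum.inr c)
  have hw : ∀ (c : D) (x y : Y ⊕ D), Spans X {x, y} → (∀ c', Sum.inr c' = x → c' = c) →
      (∀ c', Sum.inr c' = y → c' = c) → w x y = w' c x y := by
    intro c x y h hx hy
    rcases x with x | x
    · rcases y with y | y
      · show u (Sum.inr c0) (Sum.inl x) (Sum.inl y) =
          u (Sum.inr c) (Sum.inl x) (Sum.inl y) - (b c y - b c x)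
        rw [← hb c x y h]
        abel
      · have h1 : y = c := hy y rfl
        subst h1
        rfl
    · have h1 : x = c := hx x rfl
      subst h1
      rfl
  refine ⟨w, ?_⟩
  intro x y z h
  have hex : ∃ c : D, ∀ c', Sum.inr c' ∈ ({x, y, z} : Set (Y ⊕ D)) → c' = c := by
    by_cases h1 : ∃ c : D, Sum.inr c ∈ ({x, y, z} : Set (Y ⊕ D))
    · obtain ⟨c, hc⟩ := h1
      exact ⟨c, fun c' hc' => hone _ c' c h hc' hc⟩
    · exact ⟨c0, fun c' hc' => (h1 ⟨c', hc'⟩).elim⟩
  obtain ⟨c, hc⟩ := hex
  have hx : ∀ c', Sum.inr c' = x → c' = c := fun c' h => hc c' (by simp [h])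
  have hy : ∀ c', Sum.inr c' = y → c' = c := fun c' h => hc c' (by simp [h])
  have hz : ∀ c', Sum.inr c' = z → c' = c := fun c' h => hc c' (by simp [h])
  have hyz : Spans X {y, z} := spans_mono h (by intro t; simp; tauto) ⟨y, by simp⟩
  have hxz : Spans X {x, z} := spans_mono h (by intro t; simp; tauto) ⟨x, by simp⟩
  have hxy : Spans X {x, y} := spans_mono h (by intro t; simp; tauto) ⟨x, by simp⟩
  rw [hw c y z hyz hy hz, hw c x z hxz hx hz, hw c x y hxy hx hy, key c x y z h hc]
  show _ = (u (Sum.inr c) y z - (B c z - B c y)) - (u (Sum.inr c) x z - (B c z - B c x)) +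
    (u (Sum.inr c) x y - (B c y - B c x))
  abel

theorem move_ctx {V : Type} {X : AbstractSimplicialComplex V} (l r : List V) {p q : List V}
    (h : Relation.EqvGen (Move X) p q) : Relation.EqvGen (Move X) (l ++ p ++ r) (l ++ q ++ r) := by
  induction h with
  | rel p q h =>
    apply Relation.EqvGen.rel
    cases h with
    | tri l' r' a b c h =>
      have h1 := Move.tri (l ++ l') (r' ++ r) a b c h
      simpa using h1
    | rep l' r' a =>
      have h1 := Move.rep (X := X) (l ++ l') (r' ++ r) a
      simpa using h1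
  | refl p => exact Relation.EqvGen.refl _
  | symm p q _ ih => exact Relation.EqvGen.symm _ _ ih
  | trans p q s _ _ ih1 ih2 => exact Relation.EqvGen.trans _ _ _ ih1 ih2

theorem join_simply (c0 : D) (y0 : Y)
    (hone : ∀ (S : Set (Y ⊕ D)) (c c' : D), Spans X S → Sum.inr c ∈ S → Sum.inr c' ∈ S → c = c')
    (hcone : ∀ (S : Set (Y ⊕ D)) (c : D), Spans X S → (∀ c', Sum.inr c' ∈ S → c' = c) →
      Spans X (insert (Sum.inr c) S))
    (hconn : ∀ y y' : Y, Relation.ReflTransGen (fun a b => Spans X {Sum.inl a, Sum.inl b}) y y') :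
    SimplyConn X := by
  classical
  have hsing : ∀ x : Y ⊕ D, Spans X {x} := fun x => ⟨{x}, X.singleton_mem x, by simp⟩
  have hedge : ∀ (y : Y) (c : D), Spans X {Sum.inr c, Sum.inl y} := by
    intro y c
    have h := hcone {Sum.inl y} c (hsing _) (by intro c' h; cases h)
    exact h
  have hedge' : ∀ (y : Y) (c : D), Spans X {Sum.inl y, Sum.inr c} := by
    intro y c
    rw [Set.pair_comm]
    exact hedge y c
  have htri : ∀ (y y' : Y) (c : D), Spans X {Sum.inl y, Sum.inl y'} →
      Spans X {Sum.inr c, Sum.inl y, Sum.inl y'} := by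
    intro y y' c h
    exact hcone _ c h (by rintro c' (h | h) <;> cases h)
  refine ⟨⟨Sum.inl y0⟩, ?_, ?_⟩
  · -- connected
    have h1 : ∀ x : Y ⊕ D, Relation.ReflTransGen (fun a b => Spans X {a, b}) (Sum.inl y0) x := by
      intro x
      rcases x with x | x
      · have h2 := hconn y0 x
        induction h2 with
        | refl => exact Relation.ReflTransGen.refl
        | tail _ h ih => exact ih.tail h
      · exact Relation.ReflTransGen.single (hedge' y0 x)
    intro v w
    refine (rtg_symm ?_ (h1 v)).trans (h1 w)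
    intro a b h
    show Spans X {b, a}
    rw [Set.pair_comm]
    exact h
  · -- the legs
    let L : Y ⊕ D → List (Y ⊕ D) := fun x => match x with
      | Sum.inl _ => [Sum.inr c0]
      | Sum.inr _ => [Sum.inr c0, Sum.inl y0]
    have hmid : ∀ (y : Y) (c : D), Relation.EqvGen (Move X) [Sum.inr c0, Sum.inl y, Sum.inr c]
        [Sum.inr c0, Sum.inl y0, Sum.inr c] := by
      intro y c
      have h1 := hconn y0 y
      induction h1 with
      | refl => exact Relation.EqvGen.refl _
      | @tail y1 y2 _ h ih =>
        refine Relation.EqvGen.trans _ _ _ ?_ ih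
        -- `c0, y2, c ~ c0, y1, y2, c ~ c0, y1, c`
        have h2 : Move X [Sum.inr c0, Sum.inl y1, Sum.inl y2, Sum.inr c]
            [Sum.inr c0, Sum.inl y2, Sum.inr c] :=
          Move.tri [] [Sum.inr c] (Sum.inr c0) (Sum.inl y1) (Sum.inl y2) (htri y1 y2 c0 h)
        have h3 : Move X [Sum.inr c0, Sum.inl y1, Sum.inl y2, Sum.inr c]
            [Sum.inr c0, Sum.inl y1, Sum.inr c] := by
          refine Move.tri [Sum.inr c0] [] (Sum.inl y1) (Sum.inl y2) (Sum.inr c) ?_
          have h4 := htri y1 y2 c h
          convert h4 using 1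
          ext t
          simp only [Set.mem_insert_iff, Set.mem_singleton_iff]
          tauto
        exact Relation.EqvGen.trans _ _ _ (Relation.EqvGen.symm _ _ (Relation.EqvGen.rel _ _ h2))
          (Relation.EqvGen.rel _ _ h3)
    have hleg : ∀ a b : Y ⊕ D, Spans X {a, b} →
        Relation.EqvGen (Move X) (L a ++ [a, b]) (L b ++ [b]) := by
      intro a b h
      rcases a with y | c
      · rcases b with y' | c'
        · exact Relation.EqvGen.rel _ _ (Move.tri [] [] (Sum.inr c0) (Sum.inl y) (Sum.inl y')
            (htri y y' c0 h))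
        · exact hmid y c'
      · rcases b with y' | c'
        · -- `c0, y0, c, y' ~ c0, y', c, y' ~ c0, y', y' ~ c0, y'`
          have h1 := move_ctx [] [Sum.inl y'] (hmid y' c)
          have h2 : Move X [Sum.inr c0, Sum.inl y', Sum.inr c, Sum.inl y']
              [Sum.inr c0, Sum.inl y', Sum.inl y'] := by
            refine Move.tri [Sum.inr c0] [] (Sum.inl y') (Sum.inr c) (Sum.inl y') ?_
            have h4 := hedge y' c
            convert h4 using 1
            ext t
            simp only [Set.mem_insert_iff, Set.mem_singleton_iff]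
            tauto
          have h3 : Move X [Sum.inr c0, Sum.inl y', Sum.inl y'] [Sum.inr c0, Sum.inl y'] :=
            Move.rep [Sum.inr c0] [] (Sum.inl y')
          exact Relation.EqvGen.trans _ _ _ (Relation.EqvGen.symm _ _ h1)
            (Relation.EqvGen.trans _ _ _ (Relation.EqvGen.rel _ _ h2) (Relation.EqvGen.rel _ _ h3))
        · have h1 : c = c' := hone _ c c' h (by simp) (by simp)
          subst h1
          exact Relation.EqvGen.rel _ _ (Move.rep [Sum.inr c0, Sum.inl y0] [] (Sum.inr c))
    have hback : ∀ a : Y ⊕ D, Relation.EqvGen (Move X) (a :: (L a).reverse ++ L a ++ [a]) [a] := by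
      intro a
      have hz : ∀ z : Y ⊕ D, Spans X {a, z} → Relation.EqvGen (Move X) [a, z, z, a] [a] := by
        intro z h
        have h1 : Move X [a, z, z, a] [a, z, a] := Move.rep [a] [a] z
        have h2 : Move X [a, z, a] [a, a] := by
          refine Move.tri [] [] a z a ?_
          convert h using 1
          ext t
          simp only [Set.mem_insert_iff, Set.mem_singleton_iff]
          tauto
        have h3 : Move X [a, a] [a] := Move.rep [] [] a
        exact Relation.EqvGen.trans _ _ _ (Relation.EqvGen.rel _ _ h1)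
          (Relation.EqvGen.trans _ _ _ (Relation.EqvGen.rel _ _ h2) (Relation.EqvGen.rel _ _ h3))
      rcases a with y | c
      · exact hz (Sum.inr c0) (hedge' y c0)
      · have h1 : Relation.EqvGen (Move X)
            [Sum.inr c, Sum.inl y0, Sum.inr c0, Sum.inr c0, Sum.inl y0, Sum.inr c]
            [Sum.inr c, Sum.inl y0, Sum.inl y0, Sum.inr c] := by
          have h2 : Move X [Sum.inr c, Sum.inl y0, Sum.inr c0, Sum.inr c0, Sum.inl y0, Sum.inr c]
            [Sum.inr c, Sum.inl y0, Sum.inr c0, Sum.inl y0, Sum.inr c] :=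
            Move.rep [Sum.inr c, Sum.inl y0] [Sum.inl y0, Sum.inr c] (Sum.inr c0)
          have h3 : Move X [Sum.inr c, Sum.inl y0, Sum.inr c0, Sum.inl y0, Sum.inr c]
            [Sum.inr c, Sum.inl y0, Sum.inl y0, Sum.inr c] := by
            refine Move.tri [Sum.inr c] [Sum.inr c] (Sum.inl y0) (Sum.inr c0) (Sum.inl y0) ?_
            have h4 := hedge y0 c0
            convert h4 using 1
            ext t
            simp only [Set.mem_insert_iff, Set.mem_singleton_iff]
            tauto
          exact Relation.EqvGen.trans _ _ _ (Relation.EqvGen.rel _ _ h2)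
            (Relation.EqvGen.rel _ _ h3)
        exact Relation.EqvGen.trans _ _ _ h1 (hz (Sum.inl y0) (hedge y0 c))
    -- the paths
    have hpath : ∀ (p : List (Y ⊕ D)) (a b : Y ⊕ D), p.IsChain (fun a b => Spans X {a, b}) →
        p.head? = some a → p.getLast? = some b →
        Relation.EqvGen (Move X) (L a ++ p) (L b ++ [b]) := by
      intro p
      induction p with
      | nil =>
        intro a b _ h _
        cases h
      | cons x p ih =>
        intro a b hch hh hl
        have hxa : x = a := by simpa using hh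
        subst hxa
        cases p with
        | nil =>
          have h1 : x = b := by simpa using hl
          subst h1
          exact Relation.EqvGen.refl _
        | cons x' p =>
          rw [List.isChain_cons_cons] at hch
          have h1 := ih x' b hch.2 rfl (by simpa [List.getLast?_cons_cons] using hl)
          refine Relation.EqvGen.trans _ _ _ ?_ h1
          have h2 := move_ctx [] p (hleg x x' hch.1)
          simpa using h2
    intro v p hp
    obtain ⟨hp1, hp2, hp3⟩ := hp
    obtain ⟨q, rfl⟩ : ∃ q, p = v :: q := by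
      cases p with
      | nil => cases hp2
      | cons x q =>
        have : x = v := by simpa using hp2
        subst this
        exact ⟨q, rfl⟩
    have h1 := hpath _ v v hp1 hp2 hp3
    have h2 := move_ctx [] q (hback v)
    have h3 := move_ctx (v :: (L v).reverse) [] h1
    have h4 := hback v
    simp only [List.nil_append, List.append_nil, List.append_assoc, List.cons_append] at h2 h3 h4
    refine Relation.EqvGen.trans _ _ _ (Relation.EqvGen.symm _ _ h2)
      (Relation.EqvGen.trans _ _ _ h3 h4)

end join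

end Pool.Agent.Helper25.VS
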