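import Pool.Agent.Helper25.VS.Coset
import Pool.Agent.Helper294.HallC.PcFp
import Pool.Agent.Helper294.HallC.FngOfFp

/-!
# The action, stabilisers and orbits
-/

set_option autoImplicit false

namespace Pool.Agent.Helper25.VS

open Pool.Agent.W326.DU Pool.Agent.Y66.HC Pool.Agent.Q18.HC.BB
open Pool.Agent.Helper294.HallC

section act

variable {V : Type} {ad : V → V → Prop}

theorem smul_vt (g h : RAAG ad) (σ : Cl ad) : g • vt ad h σ = vt ad (g * h) σ := rfl

theorem mem_map_smul (g : RAAG ad) (s : Finset (WV ad)) (x : WV ad) :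
    x ∈ s.map (MulAction.toPerm g).toEmbedding ↔ g⁻¹ • x ∈ s := by
  rw [Finset.mem_map]
  constructor
  · rintro ⟨y, hy, rfl⟩
    show g⁻¹ • (g • y) ∈ s
    rw [inv_smul_smul]
    exact hy
  · intro h
    exact ⟨_, h, smul_inv_smul g x⟩

theorem gcomplex : GComplex (RAAG ad) (XX ad) where
  simplicial := by
    rintro g s ⟨h1, ⟨h, h2⟩, h3, h4⟩
    refine ⟨h1.map, ⟨g * h, ?_⟩, ?_, ?_⟩
    · intro y hy
      rw [mem_map_smul] at hy
      have h5 := h2 (g⁻¹ • y) hy
      have h6 : y = g • (g⁻¹ • y) := (smul_inv_smul g y).symm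
      rw [h6, h5, smul_vt]
      rfl
    · intro y y' hy hy'
      rw [mem_map_smul] at hy hy'
      exact h3 (g⁻¹ • y) (g⁻¹ • y') hy hy'
    · intro c c' hc hc'
      rw [mem_map_smul] at hc hc'
      have h5 := h4 (g⁻¹ • c) (g⁻¹ • c') hc hc'
      exact smul_left_cancel _ h5
  regular := by
    rintro g s ⟨h1, ⟨h, h2⟩, h3, h4⟩ hs x hx
    have hgx : g • x ∈ s := by
      rw [← hs, mem_map_smul, inv_smul_smul]
      exact hx
    rcases x with y | c
    · have h5 := h2 y hx
      have h6 := h2 (g • y) hgx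
      have h7 : g • y = y := by
        rw [h6]
        conv_rhs => rw [h5]
        rfl
      show Sum.inl (g • y) = Sum.inl y
      rw [h7]
    · have h5 := h4 (g • c) c hgx hx
      show Sum.inr (g • c) = Sum.inr c
      rw [h5]

/-- a common vertex of the cliques of a simplex -/
theorem exists_common (s : Finset (WV ad)) (hs : s ∈ (XX ad).faces) (y0 : YV ad)
    (hy0 : Sum.inl y0 ∈ s) : ∃ u : V, ∀ y : YV ad, Sum.inl y ∈ s → u ∈ y.1.1 := by
  classical
  obtain ⟨h1, h2, h3, h4⟩ := hs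
  obtain ⟨y1, hy1, hmin⟩ := s.toLeft.exists_min_image (fun y => y.1.1.card)
    ⟨y0, by rw [Finset.mem_toLeft]; exact hy0⟩
  rw [Finset.mem_toLeft] at hy1
  obtain ⟨u, hu⟩ := y1.1.2.1
  refine ⟨u, fun y hy => ?_⟩
  rcases h3 y1 y hy1 hy with h | h
  · exact h hu
  · have h5 := hmin y (by rw [Finset.mem_toLeft]; exact hy)
    have h6 := Finset.eq_of_subset_of_card_le h h5
    rw [h6]
    exact hu

theorem mk_ker_eq {g h : RAAG ad} (hgh : dg ad g = dg ad h) :
    (g : RAAG ad ⧸ (hgt ad).ker) = (h : RAAG ad ⧸ (hgt ad).ker) := by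
  rw [QuotientGroup.eq, mem_ker_iff, dg_mul, dg_inv, hgh]
  ring

theorem dg_zpow_gen (v : V) (n : ℤ) : dg ad (gen ad v ^ n) = n := by
  unfold dg
  rw [map_zpow, hgt_gen, ← ofAdd_zsmul, smul_eq_mul, mul_one]
  rfl

theorem cocompact [Fintype V] : Cocompact (RAAG ad) (XX ad) := by
  classical
  haveI : Finite (Cl ad) := by
    unfold Cl
    infer_instance
  letI : Fintype (Cl ad) := Fintype.ofFinite _
  let F : Finset (WV ad) := (Finset.univ.image fun σ : Cl ad => (Sum.inl (vt ad 1 σ) : WV ad)) ∪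
    {Sum.inr ((1 : RAAG ad) : RAAG ad ⧸ (hgt ad).ker)}
  refine ⟨F.powerset, ?_⟩
  intro s hs
  have key : ∃ g : RAAG ad, (∀ y, Sum.inl y ∈ s → y = vt ad g y.1) ∧
      ∀ c, Sum.inr c ∈ s → c = (g : RAAG ad ⧸ (hgt ad).ker) := by
    obtain ⟨h1, ⟨h, h2⟩, h3, h4⟩ := hs
    by_cases hl : ∃ y, Sum.inl y ∈ s
    · obtain ⟨y0, hy0⟩ := hl
      obtain ⟨u, hu⟩ := exists_common s ⟨h1, ⟨h, h2⟩, h3, h4⟩ y0 hy0
      by_cases hr : ∃ c, Sum.inr c ∈ s
      · obtain ⟨c, hc⟩ := hr
        obtain ⟨k, hk⟩ := QuotientGroup.mk_surjective c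
        refine ⟨h * gen ad u ^ (dg ad k - dg ad h), ?_, ?_⟩
        · intro y hy
          rw [vt_mul h (zpow_mem (gen_mem (hu y hy)) _)]
          exact h2 y hy
        · intro c' hc'
          rw [h4 c' c hc' hc, ← hk]
          apply mk_ker_eq
          rw [dg_mul, dg_zpow_gen]
          ring
      · exact ⟨h, h2, fun c hc => (hr ⟨c, hc⟩).elim⟩
    · obtain ⟨x, hx⟩ := h1
      rcases x with y | c
      · exact (hl ⟨y, hx⟩).elim
      · obtain ⟨k, hk⟩ := QuotientGroup.mk_surjective c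
        refine ⟨k, fun y hy => (hl ⟨y, hy⟩).elim, ?_⟩
        intro c' hc'
        rw [h4 c' c hc' hx, ← hk]
  obtain ⟨g, hg1, hg2⟩ := key
  refine ⟨s.map (MulAction.toPerm g⁻¹).toEmbedding, ?_, g, ?_⟩
  · rw [Finset.mem_powerset]
    intro x hx
    rw [mem_map_smul, inv_inv] at hx
    rw [Finset.mem_union]
    rcases x with y | c
    · left
      rw [Finset.mem_image]
      refine ⟨y.1, Finset.mem_univ _, ?_⟩
      have h1 := hg1 (g • y) hx
      have h2 : y = g⁻¹ • (g • y) := (inv_smul_smul g y).symm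
      have h3 : y = vt ad 1 y.1 := by
        rw [h1, smul_vt, inv_mul_cancel] at h2
        exact h2
      rw [← h3]
    · right
      rw [Finset.mem_singleton]
      have h1 := hg2 (g • c) hx
      have h2 : c = g⁻¹ • (g • c) := (inv_smul_smul g c).symm
      have h3 : c = ((1 : RAAG ad) : RAAG ad ⧸ (hgt ad).ker) := by
        rw [h1] at h2
        rw [h2]
        show ((g⁻¹ * g : RAAG ad) : RAAG ad ⧸ (hgt ad).ker) = _
        rw [inv_mul_cancel]
      rw [h3]
  · ext x
    rw [mem_map_smul, mem_map_smul, inv_inv, smul_inv_smul]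

/-- finitely generated abelian groups are finitely presented, with all their subgroups -/
theorem pc_of_comm {A : Type} [CommGroup A] (hfg : Group.FG A) : PC A := by
  refine ⟨(inferInstance : Group.IsSolvable A), ?_⟩
  haveI : AddGroup.FG (Additive A) := GroupFG.iff_add_fg.1 hfg
  haveI : Module.Finite ℤ (Additive A) := Module.Finite.iff_addGroup_fg.2 inferInstance
  haveI : IsNoetherian ℤ (Additive A) := inferInstance
  intro S
  have h1 : (AddSubgroup.toIntSubmodule (Subgroup.toAddSubgroup S)).FG := IsNoetherian.noetherian _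
  rw [Submodule.fg_iff_addSubgroup_fg] at h1
  rw [Subgroup.fg_iff_add_fg]
  exact h1

theorem pc_of_comm' {A : Type} [i : Group A] (hc : ∀ a b : A, a * b = b * a)
    (hfg : Group.FG A) : PC A :=
  @pc_of_comm A { i with mul_comm := hc } hfg

open scoped Pointwise in
/-- the stabilisers of the simplices with at least two vertices -/
theorem stab_fp (s : Finset (WV ad)) (hs : s ∈ (XX ad).faces) (hcard : 2 ≤ s.card) :
    Group.IsFinitelyPresented (stab (RAAG ad) s) := by
  classical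
  -- there is a coset of a clique subgroup
  obtain ⟨y, hy⟩ : ∃ y, Sum.inl y ∈ s := by
    by_contra hcon
    obtain ⟨a, ha, b, hb, hab⟩ := Finset.one_lt_card.1 hcard
    rcases a with a | a
    · exact hcon ⟨a, ha⟩
    · rcases b with b | b
      · exact hcon ⟨b, hb⟩
      · exact hab (by rw [hs.2.2.2 a b ha hb])
  obtain ⟨σ, q⟩ := y
  obtain ⟨g, rfl⟩ := QuotientGroup.mk_surjective q
  have hmem : ∀ x ∈ stab (RAAG ad) s, g⁻¹ * x * g ∈ Ag ad σ := by
    intro x hx
    have h1 : x • ((s : Set (WV ad))) = (s : Set (WV ad)) := hx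
    have h2 : s.map (MulAction.toPerm x).toEmbedding = s := by
      ext z
      rw [mem_map_smul, ← Finset.mem_coe, ← Finset.mem_coe, ← Set.mem_smul_set_iff_inv_smul_mem, h1]
    have h3 := gcomplex.regular x s hs h2 _ hy
    have h4 : x • (⟨σ, (g : RAAG ad ⧸ Ag ad σ)⟩ : YV ad) = ⟨σ, (g : RAAG ad ⧸ Ag ad σ)⟩ :=
      Sum.inl_injective h3
    have h5 : ((x * g : RAAG ad) : RAAG ad ⧸ Ag ad σ) = (g : RAAG ad ⧸ Ag ad σ) := by
      have h6 := (Sigma.mk.inj_iff.1 h4).2
      exact eq_of_heq h6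
    have h6 := QuotientGroup.eq.1 h5.symm
    rwa [← mul_assoc] at h6
  let φ : stab (RAAG ad) s →* Ag ad σ :=
    { toFun := fun x => ⟨g⁻¹ * x * g, hmem x x.2⟩
      map_one' := by
        apply Subtype.ext
        show g⁻¹ * 1 * g = 1
        group
      map_mul' := by
        intro a b
        apply Subtype.ext
        show g⁻¹ * (a * b) * g = g⁻¹ * a * g * (g⁻¹ * b * g)
        group }
  have hφ : Function.Injective φ := by
    intro a b hab
    have h1 : g⁻¹ * (a : RAAG ad) * g = g⁻¹ * b * g := congrArg Subtype.val hab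
    apply Subtype.ext
    exact mul_left_cancel (mul_right_cancel h1)
  have hpc : PC (Ag ad σ) := by
    have hcomm : IsMulCommutative (Ag ad σ) := Subgroup.isMulCommutative_closure (by
      rintro _ ⟨u, hu, rfl⟩ _ ⟨v, hv, rfl⟩
      by_cases huv : u = v
      · rw [huv]
      · exact Pool.Agent.W304.DU.RG.gen_comm ad u v (σ.2.2 u hu v hv huv))
    refine pc_of_comm' (fun a b => hcomm.is_comm.comm a b) ?_
    rw [Group.fg_iff_subgroup_fg]
    refine ⟨σ.1.image (gen ad), ?_⟩
    rw [Finset.coe_image]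
    rfl
  haveI : Group.IsSolvable (Ag ad σ) := hpc.1
  have hpc2 : PC (stab (RAAG ad) s) :=
    ⟨Group.isSolvable_of_isSolvable_injective hφ, MaxC.of_injective hpc.2 φ hφ⟩
  exact pc_fp hpc2

/-- the Bestvina-Brady group is not finitely presented -/
theorem ker_not_fp [Fintype V] {γ : V → V → Equiv.Perm (Fin 5)} {l : ℕ} {p : ℕ → V}
    (hg : GrData ad γ l p) : ¬ Group.IsFinitelyPresented (hgt ad).ker := by
  intro hfp
  haveI : Finite (Pool.Agent.Q18.HC.EE ad) := inferInstance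
  let F : Type := Pool.Agent.Q18.HC.Fr (Pool.Agent.Q18.HC.EE ad)
  let a : Pool.Agent.Q18.HC.EE ad → F := gen (fun _ _ : Pool.Agent.Q18.HC.EE ad => False)
  have ha : Subgroup.closure (Set.range a) = ⊤ := PresentedGroup.closure_range_of _
  have hb : Subgroup.closure (Set.range (bb ad)) = ⊤ := bb_gen hg.symm hg.conn (p 0)
  let π₂ : F →* HH ad := PresentedGroup.toGroup (f := bb ad) (by
    rintro _ ⟨_, _, h, _⟩
    exact h.elim)
  have hπ2 : ∀ e, π₂ (a e) = bb ad e := fun e => PresentedGroup.toGroup.of _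
  have hsurj : Function.Surjective π₂ := by
    rw [← MonoidHom.range_eq_top, eq_top_iff, ← hb, Subgroup.closure_le]
    rintro _ ⟨e, rfl⟩
    exact ⟨a e, hπ2 e⟩
  have hFG : Group.FG F := by
    rw [Group.fg_iff]
    exact ⟨_, ha, Set.finite_range a⟩
  obtain ⟨S, hS1, hS2⟩ := fng_of_fp hFG hfp π₂ hsurj
  refine Pool.Agent.Q18.HC.nf V ad γ l p hg ((hgt ad).ker.subtype.comp π₂) ?_ ?_ S hS1 ?_ ?_
  · intro e
    show ((π₂ (a (Sum.inl e)) : HH ad) : RAAG ad) = _
    rw [hπ2]
    rfl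
  · intro e
    show ((π₂ (a (Sum.inr e)) : HH ad) : RAAG ad) = _
    rw [hπ2]
    rfl
  · intro r hr
    have h1 : r ∈ π₂.ker := by
      rw [← hS2]
      exact Subgroup.subset_normalClosure hr
    show ((π₂ r : HH ad) : RAAG ad) = 1
    rw [MonoidHom.mem_ker.1 h1]
    rfl
  · intro x hx
    rw [hS2, MonoidHom.mem_ker]
    have hx' : ((π₂ x : HH ad) : RAAG ad) = 1 := hx
    exact Subtype.ext hx'

theorem raag_fp [Fintype V] : Group.IsFinitelyPresented (RAAG ad) := by
  haveI : Finite (rels ad) := by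
    have h1 : rels ad ⊆ Set.range (fun q : V × V => FreeGroup.of q.1 * FreeGroup.of q.2 *
        (FreeGroup.of q.1)⁻¹ * (FreeGroup.of q.2)⁻¹) := by
      rintro _ ⟨a, b, _, rfl⟩
      exact ⟨(a, b), rfl⟩
    exact (Set.finite_range _).subset h1
  infer_instance

theorem stabilizer_inr : MulAction.stabilizer (RAAG ad)
    (Sum.inr ((1 : RAAG ad) : RAAG ad ⧸ (hgt ad).ker) : WV ad) = (hgt ad).ker := by
  ext x
  rw [MulAction.mem_stabilizer_iff]
  constructor
  · intro h
    have h1 : x • ((1 : RAAG ad) : RAAG ad ⧸ (hgt ad).ker) =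
        ((1 : RAAG ad) : RAAG ad ⧸ (hgt ad).ker) := Sum.inr_injective h
    have h2 : ((x * 1 : RAAG ad) : RAAG ad ⧸ (hgt ad).ker) =
        ((1 : RAAG ad) : RAAG ad ⧸ (hgt ad).ker) := h1
    rw [mul_one, eq_comm, QuotientGroup.eq, inv_one, one_mul] at h2
    exact h2
  · intro h
    show Sum.inr (x • ((1 : RAAG ad) : RAAG ad ⧸ (hgt ad).ker)) = _
    congr 1
    show ((x * 1 : RAAG ad) : RAAG ad ⧸ (hgt ad).ker) =
        ((1 : RAAG ad) : RAAG ad ⧸ (hgt ad).ker)
    rw [mul_one, eq_comm, QuotientGroup.eq, inv_one, one_mul]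
    exact h

end act

end Pool.Agent.Helper25.VS
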